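import Mathlib

/-! Sums over words, and a Kraft type inequality for families without three-point focal sets. -/

namespace Pool.Agent.H.MP_fa373d_co.A

open Finset

variable {ι : Type} [DecidableEq ι]

/-- Sum of `f` over all words of length `T` with letters in `R`. -/
noncomputable def S (R : Finset ι) : ℕ → (List ι → ℝ) → ℝ
  | 0, f => f []
  | T + 1, f => ∑ i ∈ R, S R T (fun l => f (i :: l))

theorem S_mono (R : Finset ι) : ∀ (T : ℕ) (f g : List ι → ℝ),
    (∀ l : List ι, l.length = T → (∀ i ∈ l, i ∈ R) → f l ≤ g l) → S R T f ≤ S R T g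
  | 0, f, g, h => h [] rfl (by simp)
  | T + 1, f, g, h => by
    simp only [S]
    refine sum_le_sum fun i hi => S_mono R T _ _ fun l hl hm => h _ (by simp [hl]) ?_
    intro j hj
    rcases List.mem_cons.1 hj with rfl | hj
    · exact hi
    · exact hm j hj

theorem S_const (R : Finset ι) (c : ℝ) : ∀ T : ℕ, S R T (fun _ => c) = (R.card : ℝ) ^ T * c
  | 0 => by simp [S]
  | T + 1 => by simp only [S, S_const R c T, sum_const, nsmul_eq_mul]; ring

theorem S_smul (R : Finset ι) (c : ℝ) : ∀ (T : ℕ) (f : List ι → ℝ),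
    S R T (fun l => c * f l) = c * S R T f
  | 0, f => rfl
  | T + 1, f => by
    simp only [S, mul_sum]
    exact sum_congr rfl fun i _ => S_smul R c T (fun l => f (i :: l))

theorem S_add (R : Finset ι) : ∀ (T : ℕ) (f g : List ι → ℝ),
    S R T (fun l => f l + g l) = S R T f + S R T g
  | 0, f, g => rfl
  | T + 1, f, g => by
    simp only [S, ← sum_add_distrib]
    exact sum_congr rfl fun i _ => S_add R T (fun l => f (i :: l)) (fun l => g (i :: l))

theorem S_sum (R : Finset ι) (T : ℕ) {α : Type} (A : Finset α) (f : α → List ι → ℝ) :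
    S R T (fun l => ∑ a ∈ A, f a l) = ∑ a ∈ A, S R T (f a) := by
  classical
  induction A using Finset.induction_on with
  | empty => simp [S_const]
  | insert a A ha ih => simp only [sum_insert ha]; rw [S_add, ih]

theorem S_sub (R : Finset ι) (T : ℕ) (f g : List ι → ℝ) :
    S R T (fun l => f l - g l) = S R T f - S R T g := by
  have h1 := S_add R T f (fun l => (-1) * g l)
  rw [S_smul] at h1
  have : (fun l => f l - g l) = fun l => f l + (-1) * g l := by funext l; ring
  rw [this, h1]; ring

theorem S_nonneg (R : Finset ι) (T : ℕ) (f : List ι → ℝ) (h : ∀ l, 0 ≤ f l) : 0 ≤ S R T f := by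
  have := S_mono R T (fun _ => 0) f fun l _ _ => h l
  rwa [S_const, mul_zero] at this

/-- The first `t` letters are distinct and lie in `G`. -/
def P (G : Finset ι) (t : ℕ) (l : List ι) : Prop := (l.take t).Nodup ∧ ∀ i ∈ l.take t, i ∈ G

open Classical in
/-- Real indicator. -/
noncomputable def ind (p : Prop) : ℝ := if p then 1 else 0

theorem ind_nonneg (p : Prop) : 0 ≤ ind p := by unfold ind; split_ifs <;> norm_num
theorem ind_pos {p : Prop} (h : p) : ind p = 1 := by simp [ind, h]
theorem ind_neg {p : Prop} (h : ¬ p) : ind p = 0 := by simp [ind, h]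
theorem ind_congr {p q : Prop} (h : p ↔ q) : ind p = ind q := by rw [propext h]
theorem ind_mono {p q : Prop} (h : p → q) : ind p ≤ ind q := by
  by_cases hp : p
  · rw [ind_pos hp, ind_pos (h hp)]
  · rw [ind_neg hp]; exact ind_nonneg _
theorem ind_and (p q : Prop) : ind (p ∧ q) = ind p * ind q := by
  by_cases hp : p <;> by_cases hq : q <;> simp [ind, hp, hq]

theorem P_cons (G : Finset ι) (t : ℕ) (i : ι) (l : List ι) :
    P G (t + 1) (i :: l) ↔ i ∈ G ∧ P (G.erase i) t l := by
  simp only [P, List.take_succ_cons, List.nodup_cons, List.mem_cons, forall_eq_or_imp, mem_erase]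
  constructor
  · rintro ⟨⟨h1, h2⟩, h3, h4⟩
    exact ⟨h3, h2, fun j hj => ⟨fun e => h1 (e ▸ hj), h4 j hj⟩⟩
  · rintro ⟨h1, h2, h3⟩
    exact ⟨⟨fun h => (h3 i h).1 rfl, h2⟩, h1, fun j hj => (h3 j hj).2⟩

theorem S_P (R : Finset ι) : ∀ (t d : ℕ) (G : Finset ι), G ⊆ R →
    S R (t + d) (fun l => ind (P G t l)) = (G.card.descFactorial t : ℝ) * (R.card : ℝ) ^ d
  | 0, d, G, _ => by
    have : (fun l : List ι => ind (P G 0 l)) = fun _ => 1 := by
      funext l; exact ind_pos (by simp [P])
    rw [this, S_const]; simp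
  | t + 1, d, G, hG => by
    have e : t + 1 + d = (t + d) + 1 := by ring
    rw [e]
    simp only [S]
    have h1 : ∀ i ∈ R, S R (t + d) (fun l => ind (P G (t + 1) (i :: l))) =
        if i ∈ G then ((G.card - 1).descFactorial t : ℝ) * (R.card : ℝ) ^ d else 0 := by
      intro i _
      split_ifs with hi
      · have : (fun l => ind (P G (t + 1) (i :: l))) = fun l => ind (P (G.erase i) t l) := by
          funext l; exact ind_congr (by rw [P_cons]; simp [hi])
        rw [this, S_P R t d _ ((erase_subset _ _).trans hG), card_erase_of_mem hi]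
      · have : (fun l => ind (P G (t + 1) (i :: l))) = fun _ => 0 := by
          funext l; exact ind_neg (by rw [P_cons]; simp [hi])
        rw [this, S_const]; simp
    rw [sum_congr rfl h1, ← sum_filter, sum_const, filter_mem_eq_inter, inter_eq_right.2 hG]
    rcases Nat.eq_zero_or_pos G.card with h0 | h0
    · simp [h0]
    · obtain ⟨m, hm⟩ : ∃ m, G.card = m + 1 := ⟨G.card - 1, by omega⟩
      rw [hm, Nat.succ_descFactorial_succ]
      simp; ring

variable [Fintype ι]

/-- No focus with `q` further points whose difference sets are pairwise disjoint. -/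
def FF (q : ℕ) (F : Finset (ι → Bool)) : Prop :=
  ¬ ∃ x ∈ F, ∃ Y ⊆ F, Y.card = q ∧ x ∉ Y ∧
    ∀ y ∈ Y, ∀ z ∈ Y, y ≠ z → ∀ i, y i = x i ∨ z i = x i

/-- Coordinates of `R` where `x` and `y` agree. -/
def G2 (R : Finset ι) (x y : ι → Bool) : Finset ι := R.filter fun i => y i = x i

/-- `x` is not isolated after `t` letters. -/
def W (F : Finset (ι → Bool)) (R : Finset ι) (x : ι → Bool) (t : ℕ) (l : List ι) : Prop :=
  ∃ y ∈ F, y ≠ x ∧ (∀ i, i ∉ R → y i = x i) ∧ P (G2 R x y) t l

theorem card_cube (U : Finset ι) (x : ι → Bool) :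
    (univ.filter fun z : ι → Bool => ∀ i ∈ U, z i = x i).card = 2 ^ (Fintype.card ι - U.card) := by
  have : (univ.filter fun z : ι → Bool => ∀ i ∈ U, z i = x i) =
      Fintype.piFinset fun i => if i ∈ U then {x i} else univ := by
    ext z
    simp only [mem_filter, mem_univ, true_and, Fintype.mem_piFinset]
    refine forall_congr' fun i => ?_
    by_cases h : i ∈ U <;> simp [h]
  rw [this, Fintype.card_piFinset]
  have h2 : ∀ i, (if i ∈ U then ({x i} : Finset Bool) else univ).card = if i ∈ Uᶜ then 2 else 1 := by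
    intro i; by_cases h : i ∈ U <;> simp [h]
  simp only [h2]
  rw [prod_ite_mem, univ_inter, prod_const, card_compl]

theorem kraft (F : Finset (ι → Bool)) (hF : FF 2 F) (R : Finset ι) (T : ℕ) (l : List ι)
    (hl : l.length = T) :
    ∑ x ∈ F, ∑ t ∈ range (T + 1), 2 ^ t * ind (W F R x t l) ≤ 2 * 2 ^ R.card := by
  classical
  set a : (ι → Bool) → ℕ := fun x => Nat.findGreatest (fun t => W F R x t l) T with ha
  set F' := F.filter fun x => W F R x (a x) l with hF'
  have haT : ∀ x, a x ≤ T := fun x => Nat.findGreatest_le T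
  have h1 : ∀ x ∈ F, ∑ t ∈ range (T + 1), 2 ^ t * ind (W F R x t l) ≤
      if W F R x (a x) l then 2 * (2 : ℝ) ^ a x else 0 := by
    intro x _
    split_ifs with h
    · calc ∑ t ∈ range (T + 1), 2 ^ t * ind (W F R x t l)
          ≤ ∑ t ∈ range (T + 1), if t ∈ range (a x + 1) then (2 : ℝ) ^ t else 0 := by
            refine sum_le_sum fun t ht => ?_
            by_cases hw : W F R x t l
            · have : t ≤ a x := Nat.le_findGreatest (by simpa [Nat.lt_succ_iff] using ht) hw
              rw [ind_pos hw, if_pos (by simp; omega)]; simp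
            · rw [ind_neg hw]; split_ifs <;> simp
        _ = ∑ t ∈ range (a x + 1), (2 : ℝ) ^ t := by
            rw [sum_ite_mem, inter_eq_right.2 (range_subset_range.2 (by have := haT x; omega))]
        _ ≤ 2 * 2 ^ a x := by
            rw [geom_sum_eq (by norm_num)]; ring_nf; linarith
    · refine le_of_eq (sum_eq_zero fun t ht => ?_)
      rw [ind_neg, mul_zero]
      intro hw
      exact h (Nat.findGreatest_spec (P := fun t => W F R x t l)
        (by simpa [Nat.lt_succ_iff] using ht) hw)
  refine (sum_le_sum h1).trans ?_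
  rw [← sum_filter, ← mul_sum]
  refine mul_le_mul_of_nonneg_left ?_ (by norm_num)
  set Q : (ι → Bool) → Finset (ι → Bool) := fun x =>
    univ.filter fun z => ∀ i ∈ R \ (l.take (a x)).toFinset, z i = x i with hQ
  have hRc : R.card ≤ Fintype.card ι := card_le_univ R
  have hcard : ∀ x ∈ F', (Q x).card = 2 ^ (Fintype.card ι - R.card) * 2 ^ a x := by
    intro x hx
    obtain ⟨y, -, -, -, hn, hm⟩ := (mem_filter.1 hx).2
    have hs : (l.take (a x)).toFinset ⊆ R := fun i hi =>
      (mem_filter.1 (hm i (List.mem_toFinset.1 hi))).1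
    have hc : (l.take (a x)).toFinset.card = a x := by
      rw [List.toFinset_card_of_nodup hn, List.length_take, hl]; exact min_eq_left (haT x)
    have hle : a x ≤ R.card := hc ▸ card_le_card hs
    rw [hQ]; simp only
    rw [card_cube, card_sdiff_of_subset hs, hc, ← pow_add]
    congr 1; omega
  have key : ∀ x ∈ F', ∀ x' ∈ F', x ≠ x' → a x' ≤ a x → Disjoint (Q x) (Q x') := by
    intro x hx x' hx' hne hle
    rw [disjoint_left]
    intro z hz hz'
    have hz1 := (mem_filter.1 hz).2
    have hz2 := (mem_filter.1 hz').2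
    obtain ⟨y, hyF, hyx, hout, -, hm⟩ := (mem_filter.1 hx).2
    have hor : ∀ i, y i = x i ∨ x' i = x i := by
      intro i
      by_cases hi : i ∈ R
      · by_cases hi2 : i ∈ l.take (a x)
        · exact Or.inl (mem_filter.1 (hm i hi2)).2
        · right
          rw [← hz1 i (by simp [hi, hi2]), ← hz2 i ?_]
          simp only [mem_sdiff, hi, List.mem_toFinset, true_and]
          exact fun h => hi2 (List.take_subset_take_left l hle h)
      · exact Or.inl (hout i hi)
    have hyx' : y ≠ x' := by
      rintro rfl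
      exact hyx (funext fun i => (hor i).elim id id)
    refine hF ⟨x, (mem_filter.1 hx).1, {y, x'}, ?_, card_pair hyx', ?_, ?_⟩
    · intro w hw
      rcases mem_insert.1 hw with rfl | hw
      · exact hyF
      · rw [mem_singleton.1 hw]; exact (mem_filter.1 hx').1
    · simp only [mem_insert, mem_singleton, not_or]
      exact ⟨fun e => hyx e.symm, hne⟩
    · intro u hu v hv huv i
      simp only [mem_insert, mem_singleton] at hu hv
      rcases hu with rfl | rfl <;> rcases hv with rfl | rfl
      · exact absurd rfl huv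
      · exact hor i
      · exact (hor i).symm
      · exact absurd rfl huv
  have hdis : (F' : Set (ι → Bool)).PairwiseDisjoint Q := by
    intro x hx x' hx' hne
    rcases le_total (a x') (a x) with h | h
    · exact key x hx x' hx' hne h
    · exact (key x' hx' x hx hne.symm h).symm
  have h2 := card_le_univ (F'.biUnion Q)
  rw [card_biUnion hdis, sum_congr rfl hcard, ← mul_sum, Fintype.card_fun, Fintype.card_bool] at h2
  have h3 : 2 ^ Fintype.card ι = 2 ^ (Fintype.card ι - R.card) * 2 ^ R.card := by
    rw [← pow_add]; congr 1; omega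
  rw [h3] at h2
  have h4 := Nat.le_of_mul_le_mul_left h2 (by positivity)
  exact_mod_cast h4

end Pool.Agent.H.MP_fa373d_co.A
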