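import Pool.Agent.H.MP_fa373d_co.A

/-! Lower bounds for the number of non isolated points, and the three-point bound. -/

namespace Pool.Agent.H.MP_fa373d_co.B

open Finset Pool.Agent.H.MP_fa373d_co.A

variable {ι : Type} [DecidableEq ι] [Fintype ι]

theorem num1 (h : ℕ) (hh : 60 ≤ h) : 4 * (h : ℝ) ^ 2 ≤ (121 / 100) ^ h := by
  induction h, hh using Nat.le_induction with
  | base => norm_num
  | succ m hm ih =>
    have : (60 : ℝ) ≤ m := by exact_mod_cast hm
    rw [pow_succ (121 / 100 : ℝ)]; push_cast; nlinarith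

theorem num2 (h : ℕ) (hh : 60 ≤ h) : 64 * (h : ℝ) ≤ (5 / 4) ^ h := by
  induction h, hh using Nat.le_induction with
  | base => norm_num
  | succ m hm ih =>
    have : (60 : ℝ) ≤ m := by exact_mod_cast hm
    rw [pow_succ (5 / 4 : ℝ)]; push_cast; nlinarith

theorem desc_ge (ρ t : ℕ) : (max ((ρ : ℝ) - t) 0) ^ t ≤ (ρ.descFactorial t : ℝ) := by
  have h1 : ((ρ + 1 - t : ℕ) : ℝ) ^ t ≤ (ρ.descFactorial t : ℝ) := by
    exact_mod_cast Nat.pow_sub_le_descFactorial ρ t
  refine le_trans (pow_le_pow_left₀ (le_max_right _ _) (max_le ?_ (by positivity)) t) h1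
  rcases le_total t (ρ + 1) with h | h
  · rw [Nat.cast_sub h]; push_cast; linarith
  · have : (ρ : ℝ) + 1 ≤ t := by exact_mod_cast h
    have h0 : (0 : ℝ) ≤ ((ρ + 1 - t : ℕ) : ℝ) := by positivity
    linarith

theorem desc_tangent (ρ t : ℕ) (c : ℝ) (hc : 0 < c) :
    c ^ t * (1 + t * (((ρ : ℝ) - t - c) / c)) ≤ (ρ.descFactorial t : ℝ) := by
  refine le_trans ?_ (desc_ge ρ t)
  set u := max ((ρ : ℝ) - t) 0
  have hu0 : 0 ≤ u := le_max_right _ _
  have hu1 : (ρ : ℝ) - t ≤ u := le_max_left _ _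
  have h1 := one_add_mul_le_pow (a := (u - c) / c)
    (by rw [le_div_iff₀ hc]; linarith) t
  have h2 : u ^ t = c ^ t * (1 + (u - c) / c) ^ t := by
    rw [← mul_pow]; congr 1; field_simp; ring
  rw [h2]
  refine mul_le_mul_of_nonneg_left (le_trans ?_ h1) (by positivity)
  gcongr

omit [Fintype ι] [DecidableEq ι] in
theorem card_G2 (R : Finset ι) (x y : ι → Bool) :
    ((G2 R x y).card : ℝ) = ∑ i ∈ R, if y i = x i then (1 : ℝ) else 0 := by
  simp [G2]

omit [Fintype ι] [DecidableEq ι] in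
theorem plotkin (R : Finset ι) (K : Finset (ι → Bool)) :
    (R.card : ℝ) * (K.card : ℝ) ^ 2 / 2 ≤ ∑ x ∈ K, ∑ y ∈ K, ((G2 R x y).card : ℝ) := by
  simp only [card_G2]
  have h1 : ∑ x ∈ K, ∑ y ∈ K, ∑ i ∈ R, (if y i = x i then (1 : ℝ) else 0) =
      ∑ i ∈ R, ∑ x ∈ K, ∑ y ∈ K, (if y i = x i then (1 : ℝ) else 0) := by
    rw [sum_comm (s := R)]
    exact sum_congr rfl fun x _ => sum_comm
  rw [h1]
  have h2 : ∀ i ∈ R, (K.card : ℝ) ^ 2 / 2 ≤
      ∑ x ∈ K, ∑ y ∈ K, (if y i = x i then (1 : ℝ) else 0) := by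
    intro i _
    set σ : (ι → Bool) → ℝ := fun x => if x i then 1 else -1
    have h3 : ∀ x y : ι → Bool, (if y i = x i then (1 : ℝ) else 0) = 1 / 2 + σ x * σ y / 2 := by
      intro x y
      simp only [σ]
      cases x i <;> cases y i <;> norm_num
    simp only [h3, sum_add_distrib, sum_const, nsmul_eq_mul, ← sum_div, ← mul_sum, ← sum_mul]
    nlinarith [mul_self_nonneg (∑ x ∈ K, σ x)]
  calc (R.card : ℝ) * (K.card : ℝ) ^ 2 / 2 = ∑ _i ∈ R, (K.card : ℝ) ^ 2 / 2 := by
        simp; ring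
    _ ≤ _ := sum_le_sum h2

omit [Fintype ι] in
theorem triple (R : Finset ι) (x y z : ι → Bool) :
    2 * ((G2 R x y ∩ G2 R x z).card : ℝ) + R.card =
      (G2 R x y).card + (G2 R x z).card + (G2 R y z).card := by
  have : G2 R x y ∩ G2 R x z = R.filter fun i => y i = x i ∧ z i = x i := by
    rw [G2, G2, filter_and]
  rw [this, card_G2, card_G2, card_G2, card_filter, card_eq_sum_ones R]
  push_cast
  rw [mul_sum, ← sum_add_distrib, ← sum_add_distrib, ← sum_add_distrib]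
  refine sum_congr rfl fun i _ => ?_
  cases x i <;> cases y i <;> cases z i <;> norm_num

omit [Fintype ι] in
theorem P_inter (G H : Finset ι) (t : ℕ) (l : List ι) :
    P (G ∩ H) t l ↔ P G t l ∧ P H t l := by
  simp only [P, mem_inter]
  exact ⟨fun h => ⟨⟨h.1, fun i hi => (h.2 i hi).1⟩, h.1, fun i hi => (h.2 i hi).2⟩,
    fun h => ⟨h.1.1, fun i hi => ⟨h.1.2 i hi, h.2.2 i hi⟩⟩⟩

theorem bonf {α : Type} [DecidableEq α] (A : Finset α) (e : α → Prop) (w : Prop)
    (hw : ∀ a ∈ A, e a → w) (p : ℝ) (hp0 : 0 ≤ p) (hp1 : p ≤ 1) :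
    p * ∑ a ∈ A, ind (e a) - p ^ 2 * ∑ a ∈ A, ∑ b ∈ A.erase a, ind (e a ∧ e b) ≤ ind w := by
  have h1 : ∑ a ∈ A, ∑ b ∈ A.erase a, ind (e a ∧ e b) =
      (∑ a ∈ A, ind (e a)) ^ 2 - ∑ a ∈ A, ind (e a) := by
    rw [sq, sum_mul_sum, ← sum_sub_distrib]
    refine sum_congr rfl fun a ha => ?_
    rw [← add_sum_erase A _ ha, ← ind_and, and_self]
    simp only [ind_and]; ring
  rw [h1]
  by_cases h : w
  · rw [ind_pos h]
    nlinarith [sq_nonneg (p * ∑ a ∈ A, ind (e a) - (1 + p) / 2)]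
  · have : ∑ a ∈ A, ind (e a) = 0 := sum_eq_zero fun a ha => ind_neg fun he => h (hw a ha he)
    rw [this, ind_neg h]; simp

theorem level (F K : Finset (ι → Bool)) (hK : K ⊆ F) (R : Finset ι) (h t d : ℕ) (hh : 60 ≤ h)
    (hM : 32 * h ^ 2 ≤ R.card) (ht1 : h ≤ t) (ht2 : t ≤ 2 * h) (hκ : 16 * h ≤ K.card)
    (hcl : ∀ x ∈ K, ∀ y ∈ K, ∀ i, i ∉ R → y i = x i)
    (hfar : ∀ x ∈ K, ∀ y ∈ K, y ≠ x → 5 * (G2 R x y).card ≤ 3 * R.card) :
    4 * h * (K.card : ℝ) * (R.card : ℝ) ^ (t + d) ≤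
      ∑ x ∈ K, 2 ^ t * S R (t + d) (fun l => ind (W F R x t l)) := by
  set M : ℝ := (R.card : ℝ) with hMdef
  set κ : ℝ := (K.card : ℝ) with hκdef
  have hh' : (60 : ℝ) ≤ h := by exact_mod_cast hh
  have hM' : 32 * (h : ℝ) ^ 2 ≤ M := by rw [hMdef]; exact_mod_cast hM
  have hκ' : 16 * (h : ℝ) ≤ κ := by rw [hκdef]; exact_mod_cast hκ
  have ht1' : (h : ℝ) ≤ t := by exact_mod_cast ht1
  have ht2' : (t : ℝ) ≤ 2 * h := by exact_mod_cast ht2
  have hMpos : 0 < M := by nlinarith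
  have hκpos : 0 < κ := by linarith
  set p : ℝ := 16 * h / κ with hp
  have hp0 : 0 ≤ p := by positivity
  have hp1 : p ≤ 1 := by rw [hp, div_le_one hκpos]; exact hκ'
  have hG : ∀ x y : ι → Bool, G2 R x y ⊆ R := fun x y => filter_subset _ _
  have h1 : ∀ x ∈ K, M ^ d * (p * ∑ y ∈ K.erase x, ((G2 R x y).card.descFactorial t : ℝ) -
      p ^ 2 * (κ ^ 2 * (2 / 5 * M) ^ t)) ≤ S R (t + d) (fun l => ind (W F R x t l)) := by
    intro x hx
    have h2 := S_mono R (t + d) _ (fun l => ind (W F R x t l)) fun l _ _ =>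
      bonf (K.erase x) (fun y => P (G2 R x y) t l) (W F R x t l)
        (fun y hy he => ⟨y, hK (mem_erase.1 hy).2, (mem_erase.1 hy).1,
          hcl x hx y (mem_erase.1 hy).2, he⟩) p hp0 hp1
    refine le_trans ?_ h2
    rw [S_sub, S_smul, S_smul, S_sum, S_sum]
    have h3 : ∑ y ∈ K.erase x, S R (t + d) (fun l => ind (P (G2 R x y) t l)) =
        M ^ d * ∑ y ∈ K.erase x, ((G2 R x y).card.descFactorial t : ℝ) := by
      rw [mul_sum]
      exact sum_congr rfl fun y _ => by rw [S_P R t d _ (hG x y)]; ring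
    have h4 : ∑ y ∈ K.erase x, S R (t + d) (fun l => ∑ z ∈ (K.erase x).erase y,
        ind (P (G2 R x y) t l ∧ P (G2 R x z) t l)) ≤ M ^ d * (κ ^ 2 * (2 / 5 * M) ^ t) := by
      have h5 : ∀ y ∈ K.erase x, S R (t + d) (fun l => ∑ z ∈ (K.erase x).erase y,
          ind (P (G2 R x y) t l ∧ P (G2 R x z) t l)) ≤ κ * (M ^ d * (2 / 5 * M) ^ t) := by
        intro y hy
        rw [S_sum]
        have h6 : ∀ z ∈ (K.erase x).erase y, S R (t + d) (fun l =>
            ind (P (G2 R x y) t l ∧ P (G2 R x z) t l)) ≤ M ^ d * (2 / 5 * M) ^ t := by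
          intro z hz
          simp only [← P_inter]
          rw [S_P R t d _ (inter_subset_left.trans (hG x y)), mul_comm]
          refine mul_le_mul_of_nonneg_left ?_ (by positivity)
          have h7 : (((G2 R x y ∩ G2 R x z).card.descFactorial t : ℕ) : ℝ) ≤
              ((G2 R x y ∩ G2 R x z).card : ℝ) ^ t := by
            exact_mod_cast Nat.descFactorial_le_pow _ t
          refine h7.trans (pow_le_pow_left₀ (by positivity) ?_ t)
          have hz' := mem_erase.1 hz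
          have hz'' := mem_erase.1 hz'.2
          have hy' := mem_erase.1 hy
          have a1 : 5 * ((G2 R x y).card : ℝ) ≤ 3 * M := by
            rw [hMdef]; exact_mod_cast hfar x hx y hy'.2 hy'.1
          have a2 : 5 * ((G2 R x z).card : ℝ) ≤ 3 * M := by
            rw [hMdef]; exact_mod_cast hfar x hx z hz''.2 hz''.1
          have a3 : 5 * ((G2 R y z).card : ℝ) ≤ 3 * M := by
            rw [hMdef]; exact_mod_cast hfar y hy'.2 z hz''.2 hz'.1
          have a4 := triple R x y z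
          linarith
        refine (sum_le_sum h6).trans ?_
        rw [sum_const, nsmul_eq_mul]
        refine mul_le_mul_of_nonneg_right ?_ (by positivity)
        rw [hκdef]; exact_mod_cast card_le_card ((erase_subset _ _).trans (erase_subset _ _))
      refine (sum_le_sum h5).trans ?_
      rw [sum_const, nsmul_eq_mul]
      have h8 : ((K.erase x).card : ℝ) ≤ κ := by
        rw [hκdef]; exact_mod_cast card_le_card (erase_subset _ _)
      calc ((K.erase x).card : ℝ) * (κ * (M ^ d * (2 / 5 * M) ^ t))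
          ≤ κ * (κ * (M ^ d * (2 / 5 * M) ^ t)) := mul_le_mul_of_nonneg_right h8 (by positivity)
        _ = _ := by ring
    rw [h3]
    nlinarith [mul_le_mul_of_nonneg_left h4 (sq_nonneg p)]
  have h9 : (M / 2) ^ t * (κ ^ 2 / 2) ≤
      ∑ x ∈ K, ∑ y ∈ K.erase x, ((G2 R x y).card.descFactorial t : ℝ) := by
    refine le_trans ?_ (sum_le_sum fun x _ => sum_le_sum fun y _ =>
      desc_tangent (G2 R x y).card t (M / 2) (by positivity))
    simp only [← mul_sum]
    refine mul_le_mul_of_nonneg_left ?_ (by positivity)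
    have b1 : ∀ x ∈ K, ∑ y ∈ K.erase x, (1 + t * ((((G2 R x y).card : ℝ) - t - M / 2) / (M / 2))) =
        (κ - 1) * (1 - t - 2 * t ^ 2 / M) + 2 * t / M * (∑ y ∈ K, ((G2 R x y).card : ℝ) - M) := by
      intro x hx
      have c1 : ∑ y ∈ K, ((G2 R x y).card : ℝ) - M = ∑ y ∈ K.erase x, ((G2 R x y).card : ℝ) := by
        rw [← add_sum_erase K _ hx]
        have : G2 R x x = R := by simp [G2]
        rw [this]; ring
      have c2 : ((K.erase x).card : ℝ) = κ - 1 := by
        rw [card_erase_of_mem hx, Nat.cast_sub (card_pos.2 ⟨x, hx⟩)]; simp [hκdef]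
      rw [c1, ← c2, mul_sum, ← nsmul_eq_mul, ← sum_const, ← sum_add_distrib]
      refine sum_congr rfl fun y _ => ?_
      field_simp; ring
    rw [sum_congr rfl b1, sum_add_distrib, sum_const, nsmul_eq_mul, ← mul_sum, sum_sub_distrib,
      sum_const, nsmul_eq_mul, ← hκdef]
    have b2 := plotkin R K
    rw [← hMdef, ← hκdef] at b2
    have b3 : 2 * t / M * (M * κ ^ 2 / 2 - κ * M) ≤
        2 * t / M * (∑ x ∈ K, ∑ y ∈ K, ((G2 R x y).card : ℝ) - κ * M) :=
      mul_le_mul_of_nonneg_left (by linarith) (by positivity)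
    have b4 : 2 * t / M * (M * κ ^ 2 / 2 - κ * M) = t * κ ^ 2 - 2 * t * κ := by
      field_simp
    have b5 : 2 * (t : ℝ) ^ 2 / M ≤ 1 / 4 := by
      rw [div_le_iff₀ hMpos]; nlinarith
    have b6 : κ * ((κ - 1) * (3 / 4 - t)) ≤ κ * ((κ - 1) * (1 - t - 2 * t ^ 2 / M)) := by
      refine mul_le_mul_of_nonneg_left (mul_le_mul_of_nonneg_left (by linarith) (by linarith))
        hκpos.le
    have b7 : t * κ ≤ κ / 8 * κ := mul_le_mul_of_nonneg_right (by linarith) hκpos.le
    nlinarith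
  have h10 : 16 * h * (2 / 5 * M) ^ t ≤ (M / 2) ^ t / 4 := by
    have c1 : (M / 2) ^ t = (2 / 5 * M) ^ t * (5 / 4) ^ t := by
      rw [← mul_pow]; congr 1; ring
    have c2 : ((5 : ℝ) / 4) ^ h ≤ (5 / 4) ^ t := pow_le_pow_right₀ (by norm_num) ht1
    have c3 := num2 h hh
    have c4 : 0 ≤ (2 / 5 * M) ^ t := by positivity
    rw [c1]; nlinarith
  rw [← mul_sum]
  refine le_trans ?_ (mul_le_mul_of_nonneg_left (sum_le_sum h1) (by positivity))
  rw [← mul_sum, sum_sub_distrib, ← mul_sum, sum_const, nsmul_eq_mul, ← hκdef]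
  have d1 : p * ((M / 2) ^ t * (κ ^ 2 / 2)) = 16 * h * κ * ((M / 2) ^ t / 2) := by
    rw [hp]; field_simp
  have d2 : κ * (p ^ 2 * (κ ^ 2 * (2 / 5 * M) ^ t)) = 16 * h * κ * (16 * h * (2 / 5 * M) ^ t) := by
    rw [hp]; field_simp
  have d3 := mul_le_mul_of_nonneg_left h9 hp0
  have d4 := mul_le_mul_of_nonneg_left h10 (show (0 : ℝ) ≤ 16 * h * κ by positivity)
  have d5 : 4 * h * κ * M ^ (t + d) = 2 ^ t * (M ^ d * (16 * h * κ * ((M / 2) ^ t / 4))) := by
    rw [div_pow, pow_add]; field_simp; ring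
  rw [d5]
  refine mul_le_mul_of_nonneg_left (mul_le_mul_of_nonneg_left ?_ (by positivity)) (by positivity)
  rw [d2]; linarith

/-- Keep the coordinates of `U`. -/
def msk (U : Finset ι) (x : ι → Bool) : ι → Bool := fun i => if i ∈ U then x i else false

theorem card_msk (U : Finset ι) (F : Finset (ι → Bool)) :
    (F.image (msk U)).card ≤ 2 ^ U.card := by
  have h := card_cube Uᶜ (fun _ => false)
  rw [card_compl, Nat.sub_sub_self (card_le_univ U)] at h
  rw [← h]
  refine card_le_card fun z hz => ?_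
  obtain ⟨x, -, rfl⟩ := mem_image.1 hz
  simp only [mem_filter, mem_univ, true_and, mem_compl]
  intro i hi
  simp [msk, hi]

omit [Fintype ι] in
theorem msk_eq {U : Finset ι} {x y : ι → Bool} (h : msk U x = msk U y) {i : ι} (hi : i ∈ U) :
    x i = y i := by simpa [msk, hi] using congrFun h i

theorem core (F : Finset (ι → Bool)) (hF : FF 2 F) (U R : Finset ι) (h : ℕ) (hh : 60 ≤ h)
    (hM : 32 * h ^ 2 ≤ R.card) (hout : ∀ x ∈ F, ∀ y ∈ F, ∀ i, i ∉ U → i ∉ R → y i = x i) :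
    4 * (h : ℝ) ^ 2 * (F.card - 16 * h * 2 ^ U.card) ≤ 2 * 2 ^ R.card := by
  classical
  set M : ℝ := (R.card : ℝ) with hMdef
  have hh' : (60 : ℝ) ≤ h := by exact_mod_cast hh
  have hM' : 32 * (h : ℝ) ^ 2 ≤ M := by rw [hMdef]; exact_mod_cast hM
  have hMpos : 0 < M := by nlinarith
  set e : (ι → Bool) → ℝ := fun x =>
    ∑ t ∈ range (2 * h + 1), 2 ^ t * S R (2 * h) (fun l => ind (W F R x t l)) with he
  have hS0 : ∀ x t, 0 ≤ 2 ^ t * S R (2 * h) (fun l => ind (W F R x t l)) := fun x t =>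
    mul_nonneg (by positivity) (S_nonneg _ _ _ fun _ => ind_nonneg _)
  have up : ∑ x ∈ F, e x ≤ M ^ (2 * h) * (2 * 2 ^ R.card) := by
    have := S_mono R (2 * h) _ (fun _ => 2 * 2 ^ R.card) fun l hl _ => kraft F hF R (2 * h) l hl
    rw [S_const, S_sum] at this
    refine le_trans (le_of_eq (sum_congr rfl fun x _ => ?_)) this
    rw [S_sum]
    exact sum_congr rfl fun t _ => (S_smul _ _ _ _).symm
  set cl : (ι → Bool) → Prop := fun x =>
    ∃ y ∈ F, y ≠ x ∧ msk U y = msk U x ∧ 3 * R.card < 5 * (G2 R x y).card with hcl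
  have agr : ∀ x ∈ F, ∀ y ∈ F, msk U y = msk U x → ∀ i, i ∉ R → y i = x i := by
    intro x hx y hy hm i hi
    by_cases hu : i ∈ U
    · exact msk_eq hm hu
    · exact hout x hx y hy i hu hi
  have c1 : ∀ x ∈ F.filter cl, 4 * (h : ℝ) ^ 2 * M ^ (2 * h) ≤ e x := by
    intro x hx
    obtain ⟨hxF, y, hyF, hyx, hm, hlt⟩ := mem_filter.1 hx
    refine le_trans ?_ (single_le_sum (f := fun t =>
      2 ^ t * S R (2 * h) (fun l => ind (W F R x t l))) (fun t _ => hS0 x t)
      (self_mem_range_succ (2 * h)))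
    have a1 := S_mono R (2 * h) (fun l => ind (P (G2 R x y) (2 * h) l))
      (fun l => ind (W F R x (2 * h) l)) fun l _ _ =>
      ind_mono fun hp => ⟨y, hyF, hyx, agr x hxF y hyF hm, hp⟩
    have a2 := S_P R (2 * h) 0 (G2 R x y) (filter_subset _ _)
    rw [add_zero, pow_zero, mul_one] at a2
    rw [a2] at a1
    have a3 := desc_ge (G2 R x y).card (2 * h)
    have a4 : 3 * M < 5 * ((G2 R x y).card : ℝ) := by rw [hMdef]; exact_mod_cast hlt
    have a5 : (11 / 20 * M) ^ (2 * h) ≤ (max (((G2 R x y).card : ℝ) - (2 * h : ℕ)) 0) ^ (2 * h) := by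
      refine pow_le_pow_left₀ (by positivity) (le_trans ?_ (le_max_left _ _)) _
      push_cast; nlinarith
    have a6 : (2 : ℝ) ^ (2 * h) * (11 / 20 * M) ^ (2 * h) = (121 / 100) ^ h * M ^ (2 * h) := by
      rw [← mul_pow, show (121 / 100 : ℝ) = (11 / 10) ^ 2 by norm_num, ← pow_mul, ← mul_pow]
      congr 1; ring
    calc 4 * (h : ℝ) ^ 2 * M ^ (2 * h) ≤ (121 / 100) ^ h * M ^ (2 * h) :=
          mul_le_mul_of_nonneg_right (num1 h hh) (by positivity)
      _ ≤ _ := by
          rw [← a6]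
          exact mul_le_mul_of_nonneg_left (a5.trans (a3.trans a1)) (by positivity)
  set Far := F.filter fun x => ¬ cl x with hFar
  have c2 : ∀ u ∈ Far.image (msk U), 4 * (h : ℝ) ^ 2 * M ^ (2 * h) *
      (((Far.filter fun x => msk U x = u).card : ℝ) - 16 * h) ≤
      ∑ x ∈ Far.filter fun x => msk U x = u, e x := by
    intro u _
    set K := Far.filter fun x => msk U x = u with hK
    have hKF : K ⊆ F := (filter_subset _ _).trans (filter_subset _ _)
    have hKm : ∀ x ∈ K, ∀ y ∈ K, msk U y = msk U x := fun x hx y hy =>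
      (mem_filter.1 hy).2.trans (mem_filter.1 hx).2.symm
    have e0 : 0 ≤ ∑ x ∈ K, e x := sum_nonneg fun x _ => sum_nonneg fun t _ => hS0 x t
    rcases le_or_gt (16 * h) K.card with hκ | hκ
    · have a1 : ∀ t ∈ Ico h (2 * h), 4 * h * (K.card : ℝ) * M ^ (2 * h) ≤
          ∑ x ∈ K, 2 ^ t * S R (2 * h) (fun l => ind (W F R x t l)) := by
        intro t ht
        obtain ⟨ht1, ht2⟩ := mem_Ico.1 ht
        have := level F K hKF R h t (2 * h - t) hh hM ht1 ht2.le hκ
          (fun x hx y hy => agr x (hKF hx) y (hKF hy) (hKm x hx y hy))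
          (fun x hx y hy hne => by
            by_contra hc
            exact (mem_filter.1 (mem_filter.1 hx).1).2 ⟨y, hKF hy, hne, hKm x hx y hy, by omega⟩)
        rwa [Nat.add_sub_cancel' ht2.le] at this
      have a2 := sum_le_sum a1
      rw [sum_const, Nat.card_Ico, show 2 * h - h = h by omega, nsmul_eq_mul, sum_comm] at a2
      have a3 : ∑ x ∈ K, ∑ t ∈ Ico h (2 * h), 2 ^ t * S R (2 * h) (fun l => ind (W F R x t l)) ≤
          ∑ x ∈ K, e x := sum_le_sum fun x _ => sum_le_sum_of_subset_of_nonneg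
        (fun t ht => by have := mem_Ico.1 ht; simp; omega) fun t _ _ => hS0 x t
      have a4 : 0 ≤ 4 * (h : ℝ) ^ 2 * M ^ (2 * h) * (16 * h) := by positivity
      nlinarith
    · have a1 : (K.card : ℝ) - 16 * h ≤ 0 := by
        have : (K.card : ℝ) ≤ 16 * h := by exact_mod_cast hκ.le
        linarith
      exact le_trans (mul_nonpos_of_nonneg_of_nonpos (by positivity) a1) e0
  have c3 := sum_le_sum c2
  rw [sum_fiberwise_of_maps_to (fun x hx => mem_image_of_mem _ hx), ← mul_sum, sum_sub_distrib,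
    sum_const, nsmul_eq_mul, ← Nat.cast_sum, ← card_eq_sum_card_image] at c3
  have c4 := sum_le_sum c1
  rw [sum_const, nsmul_eq_mul] at c4
  have c5 : ∑ x ∈ F.filter cl, e x + ∑ x ∈ Far, e x = ∑ x ∈ F, e x :=
    sum_filter_add_sum_filter_not _ _ _
  have c6 : ((F.filter cl).card : ℝ) + Far.card = F.card := by
    exact_mod_cast card_filter_add_card_filter_not (s := F) cl
  have c7 : ((Far.image (msk U)).card : ℝ) ≤ 2 ^ U.card := by exact_mod_cast card_msk U Far
  have c8 : 0 < M ^ (2 * h) := by positivity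
  refine le_of_mul_le_mul_left ?_ c8
  have c9 := mul_le_mul_of_nonneg_left c7
    (show (0 : ℝ) ≤ 4 * h ^ 2 * M ^ (2 * h) * (16 * h) by positivity)
  rw [← c6]
  nlinarith

end Pool.Agent.H.MP_fa373d_co.B
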